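import Pool.Agent.MP_dbc085_nt.Defs

-- part MP_dbc085_nt.Compute
section

/-! Verified list computation of the polynomials `P01 r`. -/

namespace Pool.Agent.MP_dbc085_nt

open scoped Nat
open Finset

def addL : List ℚ → List ℚ → List ℚ
  | [], b => b
  | a, [] => a
  | x :: a, y :: b => (x + y) :: addL a b

def smulL (c : ℚ) : List ℚ → List ℚ
  | [] => []
  | x :: a => (c * x) :: smulL c a

def mulL : List ℚ → List ℚ → List ℚ
  | [], _ => []
  | x :: a, b => addL (smulL x b) (0 :: mulL a b)

noncomputable def toPoly : List ℚ → Polynomial ℚ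
  | [] => 0
  | x :: a => Polynomial.C x + Polynomial.X * toPoly a

theorem toPoly_addL : ∀ a b : List ℚ, toPoly (addL a b) = toPoly a + toPoly b
  | [], b => by simp [addL, toPoly]
  | x :: a, [] => by simp [addL, toPoly]
  | x :: a, y :: b => by simp only [addL, toPoly, toPoly_addL a b, map_add]; ring

theorem toPoly_smulL (c : ℚ) : ∀ a : List ℚ, toPoly (smulL c a) = Polynomial.C c * toPoly a
  | [] => by simp [smulL, toPoly]
  | x :: a => by simp only [smulL, toPoly, toPoly_smulL c a, map_mul]; ring

theorem toPoly_mulL : ∀ a b : List ℚ, toPoly (mulL a b) = toPoly a * toPoly b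
  | [], b => by simp [mulL, toPoly]
  | x :: a, b => by
      simp only [mulL, toPoly, toPoly_addL, toPoly_smulL, toPoly_mulL a b, map_zero]; ring

theorem coeff_toPoly : ∀ (a : List ℚ) (n : ℕ), (toPoly a).coeff n = a.getD n 0
  | [], n => by simp [toPoly]
  | x :: a, 0 => by simp [toPoly]
  | x :: a, n + 1 => by simp [toPoly, Polynomial.coeff_X_mul, coeff_toPoly a n]

/-- Bernoulli numbers B_0 .. B_71. -/
def bl : List ℚ :=
  [1,
   -1/2,
   1/6,
   0,
   -1/30,
   0,
   1/42,
   0,
   -1/30,
   0,
   5/66,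
   0,
   -691/2730,
   0,
   7/6,
   0,
   -3617/510,
   0,
   43867/798,
   0,
   -174611/330,
   0,
   854513/138,
   0,
   -236364091/2730,
   0,
   8553103/6,
   0,
   -23749461029/870,
   0,
   8615841276005/14322,
   0,
   -7709321041217/510,
   0,
   2577687858367/6,
   0,
   -26315271553053477373/1919190,
   0,
   2929993913841559/6,
   0,
   -261082718496449122051/13530,
   0,
   1520097643918070802691/1806,
   0,
   -27833269579301024235023/690,
   0,
   596451111593912163277961/282,
   0,
   -5609403368997817686249127547/46410,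
   0,
   495057205241079648212477525/66,
   0,
   -801165718135489957347924991853/1590,
   0,
   29149963634884862421418123812691/798,
   0,
   -2479392929313226753685415739663229/870,
   0,
   84483613348880041862046775994036021/354,
   0,
   -1215233140483755572040304994079820246041491/56786730,
   0,
   12300585434086858541953039857403386151/6,
   0,
   -106783830147866529886385444979142647942017/510,
   0,
   1472600022126335654051619428551932342241899101/64722,
   0,
   -78773130858718728141909149208474606244347001/30,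
   0,
   1505381347333367003803076567377857208511438160235/4686,
   0]

def sumTo (f : ℕ → ℚ) : ℕ → ℚ
  | 0 => 0
  | n + 1 => sumTo f n + f n

theorem sumTo_eq (f : ℕ → ℚ) : ∀ n, sumTo f n = ∑ i ∈ range n, f i
  | 0 => by simp [sumTo]
  | n + 1 => by rw [sumTo, sum_range_succ, sumTo_eq f n]

def ch (n k : ℕ) : ℕ := n ! / (k ! * (n - k)!)

theorem ch_eq {n k : ℕ} (h : k ≤ n) : ch n k = n.choose k :=
  (Nat.choose_eq_factorial_div_factorial h).symm

def blCheck : Bool :=
  (List.range 72).all fun n =>
    sumTo (fun k => (ch (n + 1) k : ℚ) * bl.getD k 0) (n + 1) == if n = 0 then 1 else 0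

theorem blCheck_true : blCheck = true := by decide +kernel

theorem bl_eq : ∀ n < 72, bernoulli n = bl.getD n 0 := by
  intro n
  induction n using Nat.strong_induction_on with
  | _ n ih =>
    intro hn
    have h1 := blCheck_true
    unfold blCheck at h1
    rw [List.all_eq_true] at h1
    have h2 := h1 n (List.mem_range.2 hn)
    rw [beq_iff_eq, sumTo_eq, sum_range_succ] at h2
    have h3 := sum_bernoulli (n + 1)
    rw [sum_range_succ] at h3
    have h4 : ∑ k ∈ range n, (((n + 1).choose k : ℕ) : ℚ) * bernoulli k =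
        ∑ k ∈ range n, (ch (n + 1) k : ℚ) * bl.getD k 0 := by
      refine sum_congr rfl fun k hk => ?_
      have hk' := mem_range.1 hk
      rw [ch_eq (by omega), ih k hk' (by omega)]
    rw [h4] at h3
    rw [ch_eq (by omega)] at h2
    have h5 : (if n + 1 = 1 then (1 : ℚ) else 0) = if n = 0 then 1 else 0 := by
      simp
    rw [h5, ← h2] at h3
    have h6 : (((n + 1).choose n : ℕ) : ℚ) ≠ 0 := by
      have := Nat.choose_pos (n := n + 1) (k := n) (by omega)
      exact_mod_cast this.ne'
    exact mul_left_cancel₀ h6 (add_left_cancel h3)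

end Pool.Agent.MP_dbc085_nt

end

-- part MP_dbc085_nt.Eval
section

/-! Verified list computation of the polynomials `P01 r`, part two. -/

namespace Pool.Agent.MP_dbc085_nt

open scoped Nat
open Finset

/-- coefficient list of `s_j` -/
def sL (j : ℕ) : List ℚ :=
  (List.range (j + 2)).map fun a => if a = 0 then 0 else
    ((-1) ^ (j + 1 - a) * bl.getD (j + 1 - a) 0) * (ch (j + 1) (j + 1 - a) : ℚ) / (j + 1)

theorem powerSum_eq (j : ℕ) (hj : j < 71) : powerSum j = toPoly (sL j) := by
  have h : powerSum j = ∑ i ∈ Finset.range (j + 1),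
      Polynomial.monomial (j + 1 - i) (bernoulli' i * ((j + 1).choose i : ℚ) / (j + 1)) := by
    apply powerSum_unique
    intro N
    have h := sum_Ico_pow N j
    rw [← Finset.Ico_add_one_right_eq_Icc, h, Polynomial.eval_finsetSum]
    refine Finset.sum_congr rfl fun i _ => ?_
    rw [Polynomial.eval_monomial]
    ring
  rw [h]
  ext a
  rw [coeff_toPoly, Polynomial.finsetSum_coeff]
  simp only [Polynomial.coeff_monomial]
  by_cases ha : a < j + 2
  · have e1 : (sL j).getD a 0 = if a = 0 then 0 else
        ((-1) ^ (j + 1 - a) * bl.getD (j + 1 - a) 0) * (ch (j + 1) (j + 1 - a) : ℚ) / (j + 1) := by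
      simp [sL, List.getD_eq_getElem?_getD, ha]
    rw [e1]
    by_cases h0 : a = 0
    · rw [if_pos h0]
      refine sum_eq_zero fun i hi => ?_
      have := mem_range.1 hi
      rw [if_neg (by omega)]
    · rw [if_neg h0, sum_eq_single (j + 1 - a)]
      · rw [if_pos (by omega), ch_eq (by omega), bernoulli'_eq_bernoulli, bl_eq _ (by omega)]
      · intro i hi hne
        have := mem_range.1 hi
        rw [if_neg (by omega)]
      · intro hn
        exact absurd (mem_range.2 (by omega)) hn
  · have e1 : (sL j).getD a 0 = 0 := by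
      simp [sL, List.getD_eq_getElem?_getD, ha]
    rw [e1]
    refine sum_eq_zero fun i hi => ?_
    have := mem_range.1 hi
    rw [if_neg (by omega)]

theorem coeff_exponent (r k : ℕ) : PowerSeries.coeff k (exponent r) =
    if 1 ≤ k ∧ k ≤ r then
      Polynomial.C ((-1) ^ (k + 1) * bernoulli k / ((k : ℚ) * (k ! : ℚ))) *
        (powerSum k - Polynomial.X) else 0 := by
  unfold exponent
  rw [map_sum]
  simp only [PowerSeries.coeff_C_mul, PowerSeries.coeff_X_pow, mul_ite, mul_one, mul_zero]
  rw [Finset.sum_ite_eq]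
  simp only [Finset.mem_Icc]

theorem hasSubst_exponent (r : ℕ) : PowerSeries.HasSubst (exponent r) := by
  apply PowerSeries.HasSubst.of_constantCoeff_zero'
  rw [← PowerSeries.coeff_zero_eq_constantCoeff_apply, coeff_exponent]
  simp

noncomputable def EE (r : ℕ) : PowerSeries (Polynomial ℚ) :=
  (PowerSeries.exp (Polynomial ℚ)).subst (exponent r)

theorem EE_zero (r : ℕ) : PowerSeries.coeff 0 (EE r) = 1 := by
  unfold EE
  rw [PowerSeries.coeff_subst' (hasSubst_exponent r), finsum_eq_single _ 0]
  · simp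
  · intro d hd
    have : PowerSeries.constantCoeff (exponent r) = 0 := by
      rw [← PowerSeries.coeff_zero_eq_constantCoeff_apply, coeff_exponent]; simp
    simp [this, hd]

theorem EE_succ (r n : ℕ) : PowerSeries.coeff (n + 1) (EE r) * ((n : Polynomial ℚ) + 1) =
    ∑ i ∈ range (n + 1), (PowerSeries.coeff (i + 1) (exponent r) * ((i : Polynomial ℚ) + 1)) *
      PowerSeries.coeff (n - i) (EE r) := by
  have h := PowerSeries.derivative_subst (f := PowerSeries.exp (Polynomial ℚ))
    (hasSubst_exponent r)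
  rw [PowerSeries.derivative_exp] at h
  have h2 := congrArg (PowerSeries.coeff n) h
  rw [PowerSeries.coeff_derivative, mul_comm (PowerSeries.subst _ _), PowerSeries.coeff_mul,
    Finset.Nat.sum_antidiagonal_eq_sum_range_succ_mk] at h2
  simp only [PowerSeries.coeff_derivative] at h2
  exact h2

/-- coefficient list of `(k+1) * [z^(k+1)] exponent` -/
def gL (k : ℕ) : List ℚ :=
  smulL ((-1) ^ k * bl.getD (k + 1) 0 / ((k + 1)! : ℕ)) (addL (sL (k + 1)) [0, -1])

theorem gL_eq (r k : ℕ) (hk : k < r) (hr : r < 71) :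
    PowerSeries.coeff (k + 1) (exponent r) * ((k : Polynomial ℚ) + 1) = toPoly (gL k) := by
  rw [coeff_exponent, if_pos ⟨by omega, by omega⟩, gL, toPoly_smulL, toPoly_addL,
    ← powerSum_eq _ (by omega), ← bl_eq _ (by omega)]
  have e1 : toPoly [0, -1] = -Polynomial.X := by simp [toPoly]
  have e2 : ((k : Polynomial ℚ) + 1) = Polynomial.C ((k : ℚ) + 1) := by simp
  have e3 : (-1 : ℚ) ^ (k + 1 + 1) * bernoulli (k + 1) / (((k + 1 : ℕ) : ℚ) * ((k + 1)! : ℚ)) *
      ((k : ℚ) + 1) = (-1) ^ k * bernoulli (k + 1) / ((k + 1)! : ℕ) := by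
    have : ((k : ℚ) + 1) ≠ 0 := by positivity
    push_cast
    field_simp
    ring
  rw [e1, e2, ← e3, map_mul]
  ring

section Hom

variable {A : Type} [CommRing A] (ψ : Polynomial ℚ →+* A) (nf : List ℚ → List ℚ)

def dotL : List (List ℚ) → List (List ℚ) → List ℚ
  | a :: as, b :: bs => addL (nf (mulL a b)) (dotL as bs)
  | _, _ => []

theorem dotL_eq (hnf : ∀ l, ψ (toPoly (nf l)) = ψ (toPoly l)) :
    ∀ (N : ℕ) (as bs : List (List ℚ)), bs.length ≤ N →
      ψ (toPoly (dotL nf as bs)) =
        ∑ i ∈ range N, ψ (toPoly (as.getD i [])) * ψ (toPoly (bs.getD i []))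
  | N, [], bs, _ => by simp [dotL, toPoly]
  | N, a :: as, [], _ => by simp [dotL, toPoly]
  | 0, a :: as, b :: bs, h => by simp at h
  | N + 1, a :: as, b :: bs, h => by
      rw [dotL, toPoly_addL, map_add, hnf, toPoly_mulL, map_mul,
        dotL_eq hnf N as bs (by simpa using h), sum_range_succ', add_comm]
      simp

def Erev (G : List (List ℚ)) : ℕ → List (List ℚ)
  | 0 => [[1]]
  | n + 1 => smulL (1 / ((n : ℚ) + 1)) (dotL nf G (Erev G n)) :: Erev G n

theorem Erev_length (G : List (List ℚ)) : ∀ n, (Erev nf G n).length = n + 1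
  | 0 => rfl
  | n + 1 => by simp [Erev, Erev_length G n]

def gTab (r : ℕ) : List (List ℚ) := (List.range r).map fun k => nf (gL k)

theorem Erev_eq (hnf : ∀ l, ψ (toPoly (nf l)) = ψ (toPoly l)) (r : ℕ) (hr : r < 71) :
    ∀ n ≤ r, ∀ i ≤ n, ψ (toPoly ((Erev nf (gTab nf r) n).getD i [])) =
      ψ (PowerSeries.coeff (n - i) (EE r))
  | 0, _, i, hi => by
      obtain rfl : i = 0 := by omega
      simp [Erev, toPoly, EE_zero]
  | n + 1, hn, 0, _ => by
      have h1 := EE_succ r n
      have h2 : PowerSeries.coeff (n + 1) (EE r) = Polynomial.C (1 / ((n : ℚ) + 1)) *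
          (PowerSeries.coeff (n + 1) (EE r) * ((n : Polynomial ℚ) + 1)) := by
        have e2 : ((n : Polynomial ℚ) + 1) = Polynomial.C ((n : ℚ) + 1) := by simp
        have e3 : (1 / ((n : ℚ) + 1)) * ((n : ℚ) + 1) = 1 := by
          have : ((n : ℚ) + 1) ≠ 0 := by positivity
          field_simp
        rw [e2, mul_comm (PowerSeries.coeff (n + 1) (EE r)), ← mul_assoc, ← map_mul, e3]
        simp
      rw [Nat.sub_zero, h2, h1]
      simp only [Erev, List.getD_cons_zero, toPoly_smulL, map_mul, map_sum]
      rw [dotL_eq ψ nf hnf (n + 1) _ _ (by rw [Erev_length])]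
      congr 1
      refine sum_congr rfl fun i hi => ?_
      have hi' := mem_range.1 hi
      rw [Erev_eq hnf r hr n (by omega) i (by omega), ← map_mul ψ (PowerSeries.coeff _ _),
        gL_eq r i (by omega) hr]
      have : (gTab nf r).getD i [] = nf (gL i) := by
        have : i < r := by omega
        simp [gTab, List.getD_eq_getElem?_getD, this]
      rw [this, hnf]
  | n + 1, hn, i + 1, hi => by
      simp only [Erev, List.getD_cons_succ]
      rw [Erev_eq hnf r hr n (by omega) i (by omega)]
      congr 3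
      omega

end Hom

/-- The list `l` gives the first `N` coefficients of `f`, which are constants. -/
def RepS (N : ℕ) (f : PowerSeries (Polynomial ℚ)) (l : List ℚ) : Prop :=
  ∀ n < N, PowerSeries.coeff n f = Polynomial.C (l.getD n 0)

theorem RepS.mul {N : ℕ} {f g : PowerSeries (Polynomial ℚ)} {a b : List ℚ} (ha : RepS N f a)
    (hb : RepS N g b) : RepS N (f * g) ((mulL a b).take N) := by
  intro n hn
  have e : ((mulL a b).take N).getD n 0 = (mulL a b).getD n 0 := by
    simp [List.getD_eq_getElem?_getD, hn]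
  rw [e, ← coeff_toPoly, toPoly_mulL, Polynomial.coeff_mul, PowerSeries.coeff_mul, map_sum]
  refine sum_congr rfl fun p hp => ?_
  have := mem_antidiagonal.1 hp
  rw [ha _ (by omega), hb _ (by omega), coeff_toPoly, coeff_toPoly, map_mul]

def powL (N : ℕ) (l : List ℚ) : ℕ → ℕ → List ℚ
  | 0, _ => [1]
  | fuel + 1, n =>
      if n = 0 then [1] else
        if n % 2 = 0 then (mulL (powL N l fuel (n / 2)) (powL N l fuel (n / 2))).take N
        else (mulL ((mulL (powL N l fuel (n / 2)) (powL N l fuel (n / 2))).take N) l).take N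

theorem RepS.one (N : ℕ) : RepS N 1 [1] := by
  intro n _
  rcases n with _ | n <;> simp [PowerSeries.coeff_one]

theorem RepS.pow {N : ℕ} {f : PowerSeries (Polynomial ℚ)} {a : List ℚ} (ha : RepS N f a) :
    ∀ fuel n : ℕ, n < 2 ^ fuel → RepS N (f ^ n) (powL N a fuel n)
  | 0, n, h => by
      obtain rfl : n = 0 := by simpa using h
      simpa [powL] using RepS.one N
  | fuel + 1, n, h => by
      have ih := RepS.pow ha fuel (n / 2) (by rw [pow_succ] at h; omega)
      unfold powL
      split_ifs with h0 h2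
      · subst h0; simpa using RepS.one N
      · have : f ^ n = f ^ (n / 2) * f ^ (n / 2) := by rw [← pow_add]; congr 1; omega
        rw [this]; exact ih.mul ih
      · have : f ^ n = f ^ (n / 2) * f ^ (n / 2) * f := by
          rw [← pow_add, ← pow_succ]; congr 1; omega
        rw [this]; exact (ih.mul ih).mul ha

def betaL (N : ℕ) : List ℚ := (List.range N).map fun j => bl.getD j 0 / (j ! : ℕ)
def expL (N : ℕ) : List ℚ := (List.range N).map fun j => 1 / (j ! : ℕ)

theorem repS_beta (N : ℕ) (hN : N ≤ 72) : RepS N beta (betaL N) := by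
  intro n hn
  rw [beta, PowerSeries.coeff_mk, bl_eq n (by omega)]
  simp [betaL, List.getD_eq_getElem?_getD, hn]

theorem repS_exp (N : ℕ) : RepS N (PowerSeries.exp (Polynomial ℚ)) (expL N) := by
  intro n hn
  rw [PowerSeries.coeff_exp]
  simp [expL, List.getD_eq_getElem?_getD, hn]

def aL (r : ℕ) : List ℚ :=
  (mulL (expL (r + 1)) (powL (r + 1) (betaL (r + 1)) 7 (r + 1))).take (r + 1)

theorem repS_aL (r : ℕ) (hr : r < 71) :
    RepS (r + 1) (PowerSeries.exp (Polynomial ℚ) * beta ^ (r + 1)) (aL r) :=
  (repS_exp _).mul ((repS_beta _ (by omega)).pow 7 (r + 1) (by omega))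

def PL (nf : List ℚ → List ℚ) (r : ℕ) : List ℚ :=
  smulL ((-4) ^ r * (r ! : ℕ)) (dotL nf ((aL r).map fun x => [x]) (Erev nf (gTab nf r) r))

theorem PL_eq {A : Type} [CommRing A] (ψ : Polynomial ℚ →+* A) (nf : List ℚ → List ℚ)
    (hnf : ∀ l, ψ (toPoly (nf l)) = ψ (toPoly l)) (r : ℕ) (hr : r < 71) :
    ψ (P01 r) = ψ (toPoly (PL nf r)) := by
  rw [P01, PL, toPoly_smulL, map_mul ψ, map_mul ψ,
    dotL_eq ψ nf hnf (r + 1) _ _ (by rw [Erev_length]),
    PowerSeries.coeff_mul, Finset.Nat.sum_antidiagonal_eq_sum_range_succ_mk, map_sum]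
  congr 1
  refine sum_congr rfl fun i hi => ?_
  have hi' := mem_range.1 hi
  rw [Erev_eq ψ nf hnf r hr r le_rfl i (by omega), map_mul ψ, repS_aL r hr i (by omega)]
  congr 2
  have : toPoly (((aL r).map fun x => [x]).getD i []) = Polynomial.C ((aL r).getD i 0) := by
    simp only [List.getD_eq_getElem?_getD, List.getElem?_map]
    cases (aL r)[i]? <;> simp [toPoly]
  rw [this]

theorem P01_eq_toPoly (r : ℕ) (hr : r < 71) : P01 r = toPoly (PL id r) :=
  PL_eq (RingHom.id _) id (fun _ => rfl) r hr

theorem toPoly_take_dvd : ∀ (K : ℕ) (l : List ℚ),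
    Polynomial.X ^ K ∣ toPoly (l.take K) - toPoly l
  | 0, l => by simp
  | K + 1, [] => by simp
  | K + 1, x :: l => by
      obtain ⟨q, hq⟩ := toPoly_take_dvd K l
      refine ⟨q, ?_⟩
      simp only [List.take_succ_cons, toPoly]
      linear_combination Polynomial.X * hq

theorem coeff_P01 (K r : ℕ) (hr : r < 71) (i : ℕ) (hi : i < K) :
    (P01 r).coeff i = (PL (List.take K) r).getD i 0 := by
  have h := PL_eq (Ideal.Quotient.mk (Ideal.span {(Polynomial.X : Polynomial ℚ) ^ K}))
    (List.take K) (fun l => by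
      rw [Ideal.Quotient.eq, Ideal.mem_span_singleton]; exact toPoly_take_dvd K l) r hr
  rw [Ideal.Quotient.eq, Ideal.mem_span_singleton, Polynomial.X_pow_dvd_iff] at h
  have := h i hi
  rw [Polynomial.coeff_sub, sub_eq_zero, coeff_toPoly] at this
  exact this

end Pool.Agent.MP_dbc085_nt

end
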