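import Pool.Agent.MP_dbc085_nt.Mg.Eval

namespace Pool.Agent.MP_dbc085_nt

set_option maxRecDepth 100000 in
theorem PL_68_pos : 0 < (PL (List.take 8) 68).getD 7 0 := by decide +kernel

end Pool.Agent.MP_dbc085_nt
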